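import Pool.Agent.H63.PK.Targets

/-!
# Row LAM of pwk_modules: every weight system is a combination of the coefficients of the
exponential (helper79)
-/

set_option autoImplicit false

open Finset

namespace Pool.Agent.H79.PK

open Pool.Agent.H59.LIN Pool.Agent.H13.LN Pool.Agent.H63.PK

/-- The exponents of weight `d` form a finite set. -/
lemma fin_weight (r : ℕ → ℕ) (h0 : r 0 = 0) (d : ℕ) :
    ∃ S : Finset ((Σ d : ℕ, Fin (r d)) →₀ ℕ), ∀ α, α ∈ S ↔ Finsupp.weight (wv r) α = d := by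
  classical
  set T : Finset (Σ d : ℕ, Fin (r d)) :=
    (range (d + 1)).sigma (fun d' => (univ : Finset (Fin (r d')))) with hT
  have hw : ∀ j : (Σ d : ℕ, Fin (r d)), wv r j ≠ 0 := by
    rintro ⟨e, i⟩ h
    have he : e = 0 := h
    subst he
    rw [h0] at i
    exact i.elim0
  refine ⟨(T.finsupp fun _ => range (d + 1)).filter fun α => Finsupp.weight (wv r) α = d, ?_⟩
  intro α
  rw [mem_filter, mem_finsupp_iff]
  refine ⟨fun h => h.2, fun h => ⟨⟨?_, ?_⟩, h⟩⟩
  · intro j hj
    rw [Finsupp.mem_support_iff] at hj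
    have h1 := Finsupp.le_weight_of_ne_zero' (wv r) hj
    rw [h] at h1
    rw [hT, mem_sigma]
    refine ⟨mem_range.2 ?_, mem_univ _⟩
    have : wv r j = j.1 := rfl
    omega
  · intro j _
    have h1 := Finsupp.le_weight (wv r) (hw j) α
    rw [h] at h1
    exact mem_range.2 (by omega)

theorem lam (hFUN : T_FUN) (_hEXP : T_EXP) (_hGXP : T_GXP) (hEXH : T_EXH) (hTHE : T_THE)
    (hISO : T_ISO) : T_LAM := by
  classical
  intro R _ r x y n hD hS d hd W hW
  obtain ⟨F, hF⟩ := hFUN R R d W hW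
  obtain ⟨Ψ, hΨ, hbij⟩ := hTHE R r x y hD
  obtain ⟨S, hSm⟩ := fin_weight r hD.zero d
  set θ : MvPolynomial (Σ d : ℕ, Fin (r d)) R ≃ₐ[R] MvPolynomial (Σ d : ℕ, Fin (r d)) R :=
    AlgEquiv.ofBijective (Ψ.comp (Ph R y)) hbij with hθ
  set lam : MvPolynomial (Σ d : ℕ, Fin (r d)) R →ₗ[R] R :=
    F ∘ₗ (Ph R y).toLinearMap ∘ₗ θ.symm.toLinearMap with hlam
  have hval : ∀ l : GW d, lam (Ex (gx x) l.1) = W l.1 := by
    intro l
    obtain ⟨f, hf⟩ := hISO R r x y n hS d hd (cls R l)
      (Submodule.subset_span ⟨l, rfl⟩)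
    have h1 : Ex (gx x) l.1 = θ f := by
      rw [← hΨ d l, ← hf]
      rfl
    have h2 : lam (θ f) = F (Ph R y f) := by
      rw [hlam]
      simp
    rw [h1, h2, hf, hF d l, if_pos rfl]
  refine ⟨S, fun α => lam (MvPolynomial.monomial α 1), fun α hα => (hSm α).1 hα, ?_⟩
  intro l hl
  have h1 := hval ⟨l, hl⟩
  simp only at h1
  rw [← h1]
  set g := Ex (gx x) l with hg
  have hhom := hEXH.1 R r x d l hl
  have hsub : g.support ⊆ S := by
    intro α hα
    rw [MvPolynomial.mem_support_iff] at hα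
    exact (hSm α).2 (hhom hα)
  have h2 : lam g = ∑ α ∈ g.support, lam (MvPolynomial.monomial α 1) * g.coeff α := by
    conv_lhs => rw [g.as_sum]
    rw [map_sum]
    refine sum_congr rfl fun α _ => ?_
    have : MvPolynomial.monomial α (g.coeff α) =
        (g.coeff α) • (MvPolynomial.monomial α (1 : R)) := by
      rw [MvPolynomial.smul_monomial, smul_eq_mul, mul_one]
    rw [this, map_smul, smul_eq_mul, mul_comm]
  rw [h2]
  refine sum_subset hsub fun α _ hα => ?_
  rw [MvPolynomial.notMem_support_iff] at hα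
  rw [hα, mul_zero]

end Pool.Agent.H79.PK
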